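import Mathlib

set_option autoImplicit false

namespace Pool.Agent.PdOne

open CategoryTheory

variable {S : Type} [CommRing S]

/-- Projective dimension less than `n`. -/
def PD (S : Type) [CommRing S] (M : Type) [AddCommGroup M] [Module S M] (n : ℕ) : Prop :=
  HasProjectiveDimensionLT (ModuleCat.of S M) n

section ses
variable {A B C : Type} [AddCommGroup A] [Module S A] [AddCommGroup B] [Module S B]
  [AddCommGroup C] [Module S C] (f : A →ₗ[S] B) (g : B →ₗ[S] C)
  (he : Function.Exact f g) (hf : Function.Injective f) (hg : Function.Surjective g)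
include he hf hg

lemma ses : (ShortComplex.mk (ModuleCat.ofHom f) (ModuleCat.ofHom g)
    (ModuleCat.hom_ext (LinearMap.ext fun a => he.apply_apply_eq_zero a))).ShortExact :=
  ModuleCat.shortComplex_shortExact _ he hf hg

lemma pd1 {n : ℕ} (h2 : PD S B n) (h3 : PD S C (n + 1)) : PD S A n :=
  (ses f g he hf hg).hasProjectiveDimensionLT_X₁ n h2 h3
lemma pd2 {n : ℕ} (h1 : PD S A n) (h3 : PD S C n) : PD S B n :=
  (ses f g he hf hg).hasProjectiveDimensionLT_X₂ n h1 h3
lemma pd3 {n : ℕ} (h1 : PD S A n) (h2 : PD S B (n + 1)) : PD S C (n + 1) :=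
  (ses f g he hf hg).hasProjectiveDimensionLT_X₃ n h1 h2
end ses

section basic
variable {A B : Type} [AddCommGroup A] [Module S A] [AddCommGroup B] [Module S B]

lemma pd_one_iff : PD S A 1 ↔ Module.Projective S A := by
  rw [PD, ← projective_iff_hasProjectiveDimensionLT_one, ← IsProjective.iff_projective]

lemma PD.mono {n m : ℕ} (h : PD S A n) (hnm : n ≤ m) : PD S A m :=
  @hasProjectiveDimensionLT_of_ge _ _ _ _ n m hnm h

lemma pd_proj [Module.Projective S A] {n : ℕ} : PD S A (n + 1) :=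
  (pd_one_iff.2 inferInstance).mono (by omega)

lemma PD.equiv {n : ℕ} (h : PD S A n) (e : A ≃ₗ[S] B) : PD S B n :=
  @hasProjectiveDimensionLT_of_iso _ _ _ _ _ e.toModuleIso n h

lemma pd_prod {n : ℕ} : PD S (A × S) (n + 1) ↔ PD S A (n + 1) :=
  ⟨fun h => pd1 _ _ Function.Exact.inl_snd LinearMap.inl_injective LinearMap.snd_surjective h
      pd_proj,
    fun h => pd2 _ _ Function.Exact.inl_snd LinearMap.inl_injective LinearMap.snd_surjective h
      pd_proj⟩

lemma cover_of_pd [Module.Finite S A] (h : PD S A 2) :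
    ∃ (m : ℕ) (f : (Fin m → S) →ₗ[S] A), Function.Surjective f ∧
      Module.Projective S (LinearMap.ker f) := by
  obtain ⟨m, f, hf⟩ := Module.Finite.exists_fin' S A
  exact ⟨m, f, hf, pd_one_iff.1 (pd1 _ _ (LinearMap.exact_subtype_ker_map f)
    (Submodule.injective_subtype _) hf pd_proj h)⟩
end basic

section colon
variable (I K : Ideal S) (g : S) (hK : ∀ c, c ∈ K ↔ c * g ∈ I)

def cIn : K →ₗ[S] I × S where
  toFun k := (⟨-(k * g), I.neg_mem ((hK k).1 k.2)⟩, k)
  map_add' a b := by ext <;> simp; ring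
  map_smul' a b := by ext <;> simp; ring

def cOut : I × S →ₗ[S] ↥(I ⊔ Ideal.span {g}) where
  toFun p := ⟨p.1 + p.2 * g, Submodule.add_mem_sup p.1.2
    (Ideal.mul_mem_left _ _ (Ideal.mem_span_singleton_self g))⟩
  map_add' a b := by ext; simp; ring
  map_smul' a b := by ext; simp; ring

lemma c_exact : Function.Exact (cIn I K g hK) (cOut I g) := by
  rintro ⟨i, s⟩
  constructor
  · intro h
    have h1 : (i : S) + s * g = 0 := congrArg Subtype.val h
    have h2 : s * g = -i := by linear_combination h1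
    refine ⟨⟨s, (hK s).2 (h2 ▸ I.neg_mem i.2)⟩, ?_⟩
    ext
    · simp [cIn, h2]
    · rfl
  · rintro ⟨k, hk⟩
    rw [← hk]
    ext
    simp [cIn, cOut]

lemma cIn_inj : Function.Injective (cIn I K g hK) := fun _ _ h =>
  Subtype.ext (congrArg Prod.snd h)

lemma cOut_surj : Function.Surjective (cOut I g) := by
  rintro ⟨r, hr⟩
  obtain ⟨i, hi, s, hs, rfl⟩ := Submodule.mem_sup.1 hr
  obtain ⟨c, rfl⟩ := Ideal.mem_span_singleton'.1 hs
  exact ⟨(⟨i, hi⟩, c), rfl⟩

include hK in
lemma pd_up (h1 : PD S K 1) (h2 : PD S I 2) : PD S ↥(I ⊔ Ideal.span {g}) 2 :=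
  pd3 _ _ (c_exact I K g hK) (cIn_inj I K g hK) (cOut_surj I g) h1 (pd_prod.2 h2)

include hK in
lemma pd_down (h1 : PD S K 2) (h2 : PD S ↥(I ⊔ Ideal.span {g}) 2) : PD S I 2 :=
  pd_prod.1 (pd2 _ _ (c_exact I K g hK) (cIn_inj I K g hK) (cOut_surj I g) h1 h2)
end colon

/-- The ideal `a J + (b)`. -/
def step (J : Ideal S) (a b : S) : Ideal S := Submodule.map (LinearMap.mulLeft S a) J ⊔ Ideal.span {b}

lemma mem_step {J : Ideal S} {a b r : S} : r ∈ step J a b ↔ ∃ j ∈ J, ∃ s, r = a * j + s * b := by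
  constructor
  · intro h
    obtain ⟨_, ⟨j, hj, rfl⟩, s, hs, rfl⟩ := Submodule.mem_sup.1 h
    obtain ⟨c, rfl⟩ := Ideal.mem_span_singleton'.1 hs
    exact ⟨j, hj, c, rfl⟩
  · rintro ⟨j, hj, s, rfl⟩
    exact Submodule.add_mem_sup ⟨j, hj, rfl⟩
      (Ideal.mul_mem_left _ _ (Ideal.mem_span_singleton_self b))

lemma pd_step {J : Ideal S} {a b : S} (h1 : ∀ r, a * r = 0 → r = 0)
    (h2 : ∀ r s, b * r = a * s → ∃ t, r = a * t) (hb : b ∈ J) (hJ : PD S J 2) :
    PD S (step J a b) 2 := by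
  have inj : Function.Injective (LinearMap.mulLeft S a) := by
    intro p q h
    have : a * p = a * q := h
    exact sub_eq_zero.1 (h1 _ (by linear_combination this))
  refine pd_up _ (Submodule.map (LinearMap.mulLeft S a) ⊤) b ?_ ?_ ?_
  · intro c
    constructor
    · rintro ⟨t, -, rfl⟩
      exact ⟨t * b, J.mul_mem_left _ hb, by simp [mul_assoc]⟩
    · rintro ⟨j, -, hj⟩
      obtain ⟨t, ht⟩ := h2 c j (by rw [mul_comm]; exact hj.symm)
      exact ⟨t, trivial, ht.symm⟩
  · exact PD.equiv pd_proj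
      (Submodule.topEquiv.symm.trans (Submodule.equivMapOfInjective _ inj ⊤))
  · exact hJ.equiv (Submodule.equivMapOfInjective _ inj J)

/-- Powers of `(x, y)`, built as staircases. -/
def TT (x y : S) : ℕ → Ideal S
  | 0 => ⊤
  | n + 1 => step (TT x y n) x (y ^ (n + 1))

lemma mono_mem_TT (x y : S) : ∀ n a b, n ≤ a + b → x ^ a * y ^ b ∈ TT x y n
  | 0, _, _, _ => trivial
  | n + 1, 0, b, h => mem_step.2 ⟨0, Submodule.zero_mem _, y ^ (b - (n + 1)), by
      rw [← pow_add, show b - (n + 1) + (n + 1) = b by omega]; simp⟩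
  | n + 1, a + 1, b, h => mem_step.2 ⟨_, mono_mem_TT x y n a b (by omega), 0, by ring⟩

lemma TT_le (x y : S) (I : Ideal S) : ∀ n (c : S),
    (∀ a b, a + b = n → c * (x ^ a * y ^ b) ∈ I) → ∀ r ∈ TT x y n, c * r ∈ I
  | 0, c, h, r, _ => by
      have := h 0 0 rfl
      simp only [pow_zero, mul_one] at this
      exact I.mul_mem_right _ this
  | n + 1, c, h, r, hr => by
      obtain ⟨j, hj, s, rfl⟩ := mem_step.1 hr
      have h1 := TT_le x y I n (c * x) (fun a b hab => by
        have := h (a + 1) b (by omega)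
        convert this using 1; ring) j hj
      have h2 := h 0 (n + 1) (by omega)
      have := I.add_mem h1 (I.mul_mem_left s h2)
      convert this using 1; ring

lemma TT_mul (x y : S) (n m : ℕ) : TT x y n * TT x y m ≤ TT x y (n + m) := by
  rw [Ideal.mul_le]
  intro r hr s hs
  refine TT_le x y _ m r (fun a b hab => ?_) s hs
  rw [mul_comm]
  refine TT_le x y _ n _ (fun a' b' hab' => ?_) r hr
  have := mono_mem_TT x y (n + m) (a + a') (b + b') (by omega)
  convert this using 1; ring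

lemma pd_TT {x y : S} (h1 : ∀ r, x * r = 0 → r = 0)
    (h2 : ∀ n r s, y ^ n * r = x * s → ∃ t, r = x * t) : ∀ n, PD S (TT x y n) 2
  | 0 => PD.equiv pd_proj Submodule.topEquiv.symm
  | n + 1 => pd_step h1 (h2 _) (by simpa using mono_mem_TT x y n 0 (n + 1) (by omega))
      (pd_TT h1 h2 n)

section proj
variable {P : Type} [AddCommGroup P] [Module S P] [Module.Finite S P] [Module.Projective S P]

lemma proj_r2 {a b : S} (h2 : ∀ r s, b * r = a * s → ∃ t, r = a * t) (p q : P)
    (h : b • p = a • q) : ∃ t : P, p = a • t := by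
  obtain ⟨n, f, g, -, -, hfg⟩ := Module.Finite.exists_comp_eq_id_of_projective S P
  have h' := congrArg g h
  rw [map_smul, map_smul] at h'
  choose t ht using fun i => h2 (g p i) (g q i) (congrFun h' i)
  refine ⟨f t, ?_⟩
  have : g p = a • t := funext ht
  rw [← map_smul, ← this]
  exact (LinearMap.congr_fun hfg p).symm

lemma proj_r3 {a b c : S} (h3 : ∀ r s t, c * r = a * s + b * t → ∃ p q, r = a * p + b * q)
    (p q t : P) (h : c • p = a • q + b • t) : ∃ u v : P, p = a • u + b • v := by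
  obtain ⟨n, f, g, -, -, hfg⟩ := Module.Finite.exists_comp_eq_id_of_projective S P
  have h' := congrArg g h
  rw [map_add, map_smul, map_smul, map_smul] at h'
  choose u v huv using fun i => h3 (g p i) (g q i) (g t i) (congrFun h' i)
  refine ⟨f u, f v, ?_⟩
  have : g p = a • u + b • v := funext huv
  rw [← map_smul, ← map_smul, ← map_add, ← this]
  exact (LinearMap.congr_fun hfg p).symm
end proj

lemma not_proj [IsNoetherianRing S] {J : Ideal S} {a b : S} (h1 : ∀ r, a * r = 0 → r = 0)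
    (h2 : ∀ r s, b * r = a * s → ∃ t, r = a * t) (ha : a ∈ J) (hb : b ∈ J) (hJ : (1 : S) ∉ J) :
    ¬ Module.Projective S J := by
  intro hp
  obtain ⟨t, ht⟩ := proj_r2 h2 (⟨a, ha⟩ : J) ⟨b, hb⟩ (Subtype.ext (mul_comm b a))
  have h : a = a * t := congrArg Subtype.val ht
  have : (1 : S) - t = 0 := h1 _ (by linear_combination h)
  exact hJ ((sub_eq_zero.1 this).symm ▸ t.2)

lemma no_socle [IsNoetherianRing S] {J : Ideal S} {a b c : S} (h1 : ∀ r, a * r = 0 → r = 0)
    (h2 : ∀ r s, b * r = a * s → ∃ t, r = a * t)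
    (h3 : ∀ r s t, c * r = a * s + b * t → ∃ p q, r = a * p + b * q)
    {m : ℕ} (f : (Fin m → S) →ₗ[S] J) (hf : Function.Surjective f)
    (hp : Module.Projective S (LinearMap.ker f)) {u : S} (ha : a * u ∈ J) (hb : b * u ∈ J)
    (hc : c * u ∈ J) : u ∈ J := by
  obtain ⟨x, hx⟩ := hf ⟨_, ha⟩
  obtain ⟨y, hy⟩ := hf ⟨_, hb⟩
  obtain ⟨t, ht⟩ := hf ⟨_, hc⟩
  have k1 : b • x - a • y ∈ LinearMap.ker f := by
    rw [LinearMap.mem_ker, map_sub, map_smul, map_smul, hx, hy]; ext; simp; ring
  have k2 : c • x - a • t ∈ LinearMap.ker f := by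
    rw [LinearMap.mem_ker, map_sub, map_smul, map_smul, hx, ht]; ext; simp; ring
  have k3 : c • y - b • t ∈ LinearMap.ker f := by
    rw [LinearMap.mem_ker, map_sub, map_smul, map_smul, hy, ht]; ext; simp; ring
  obtain ⟨p, q, hpq⟩ := proj_r3 h3 (⟨_, k1⟩ : LinearMap.ker f) (-⟨_, k3⟩) ⟨_, k2⟩ (by
    ext1
    simp only [Submodule.coe_smul, Submodule.coe_add, Submodule.coe_neg]
    module)
  have e : b • x - a • y = a • (p : Fin m → S) + b • (q : Fin m → S) := congrArg Subtype.val hpq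
  obtain ⟨x', hx'⟩ := proj_r2 h2 (x - q) (y + p) (by linear_combination (norm := module) e)
  have e2 := congrArg (fun w => (f w : S)) hx'
  have hq : f q = 0 := q.2
  simp only [map_sub, map_smul, hx, hq, sub_zero, Submodule.coe_smul, smul_eq_mul] at e2
  have : u - f x' = 0 := h1 _ (by linear_combination e2)
  exact (sub_eq_zero.1 this).symm ▸ (f x').2

end Pool.Agent.PdOne
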