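import Pool.Agent.H.MP_1cfa24_ag.A

set_option autoImplicit false

namespace Pool.Agent.PdOne

open MvPolynomial

abbrev SS := MvPolynomial (Fin 3) ℚ

noncomputable def x : SS := X 0
noncomputable def y : SS := X 1
noncomputable def z : SS := X 2

noncomputable def e (a b c : ℕ) : Fin 3 →₀ ℕ :=
  Finsupp.single 0 a + Finsupp.single 1 b + Finsupp.single 2 c

@[simp] lemma e0 (a b c : ℕ) : e a b c 0 = a := by simp [e]
@[simp] lemma e1 (a b c : ℕ) : e a b c 1 = b := by simp [e]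
@[simp] lemma e2 (a b c : ℕ) : e a b c 2 = c := by simp [e]

lemma e_eta (m : Fin 3 →₀ ℕ) : m = e (m 0) (m 1) (m 2) := by
  ext i; fin_cases i <;> simp

lemma mono_eq (a b c : ℕ) : x ^ a * y ^ b * z ^ c = monomial (e a b c) 1 := by
  simp [x, y, z, X_pow_eq_monomial, monomial_mul, e]

lemma coeff_mul_mono (a b c a' b' c' : ℕ) (r : SS) :
    coeff (e a b c) (r * (x ^ a' * y ^ b' * z ^ c')) =
      if a' ≤ a ∧ b' ≤ b ∧ c' ≤ c then coeff (e (a - a') (b - b') (c - c')) r else 0 := by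
  rw [mono_eq, coeff_mul_monomial']
  have h1 : e a' b' c' ≤ e a b c ↔ a' ≤ a ∧ b' ≤ b ∧ c' ≤ c := by
    rw [Finsupp.le_def, Fin.forall_fin_succ, Fin.forall_fin_succ, Fin.forall_fin_succ]
    simp
  have h2 : e a b c - e a' b' c' = e (a - a') (b - b') (c - c') := by
    ext i; fin_cases i <;> simp
  simp only [h1, h2, mul_one]

lemma supp_mul {f g : SS} {m : Fin 3 →₀ ℕ} (h : m ∈ (f * g).support) :
    ∃ a ∈ f.support, ∃ b ∈ g.support, a + b = m := by
  classical
  exact Finset.mem_add.1 (support_mul f g h)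

/-- Polynomials all of whose exponents satisfy an upward closed condition. -/
def Ip (p : ℕ → ℕ → ℕ → Prop) (hp : ∀ a b c a' b' c', p a b c → p (a' + a) (b' + b) (c' + c)) :
    Ideal SS where
  carrier := {f | ∀ m ∈ f.support, p (m 0) (m 1) (m 2)}
  zero_mem' := by simp
  add_mem' := by
    classical
    intro f g hf hg m hm
    rcases Finset.mem_union.1 (support_add hm) with h | h
    · exact hf m h
    · exact hg m h
  smul_mem' := by
    intro r f hf m hm
    obtain ⟨a, -, b, hb, rfl⟩ := supp_mul hm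
    exact hp _ _ _ _ _ _ (hf b hb)

lemma mono_mem_Ip {p : ℕ → ℕ → ℕ → Prop} {hp} {a b c : ℕ} (h : p a b c) :
    x ^ a * y ^ b * z ^ c ∈ Ip p hp := by
  intro m hm
  rw [mono_eq] at hm
  have := Finset.mem_singleton.1 (support_monomial_subset hm)
  subst this
  simpa using h

lemma coeff_Ip {p : ℕ → ℕ → ℕ → Prop} {hp} {f : SS} (hf : f ∈ Ip p hp) {a b c : ℕ}
    (h : ¬ p a b c) : coeff (e a b c) f = 0 := by
  by_contra hne
  exact h (by simpa using hf _ (mem_support_iff.2 hne))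

lemma x_reg (n : ℕ) (r : SS) (h : x ^ n * r = 0) : r = 0 :=
  (mul_eq_zero.1 h).resolve_left (pow_ne_zero _ (X_ne_zero _))

lemma xy_reg (n m : ℕ) (r s : SS) (h : y ^ m * r = x ^ n * s) : ∃ t, r = x ^ n * t := by
  have hp : Prime (x : SS) := X_prime
  refine hp.pow_dvd_of_dvd_mul_left n (fun hd => ?_) ⟨s, h⟩
  have := hp.dvd_of_dvd_pow hd
  obtain ⟨t, ht⟩ := this
  have h2 := congrArg (MvPolynomial.eval ![0, 1, 0]) ht
  simp [x, y] at h2

lemma mem_TT1 {r : SS} : r ∈ TT x y 1 ↔ ∃ p q, r = x * p + y * q := by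
  rw [TT, mem_step]
  constructor
  · rintro ⟨j, -, s, h⟩; exact ⟨j, s, by rw [h]; ring⟩
  · rintro ⟨p, q, h⟩; exact ⟨p, trivial, q, by rw [h]; ring⟩

lemma mem_TT1_of_coeff {r : SS} (h : ∀ n, coeff (e 0 0 n) r = 0) : r ∈ TT x y 1 := by
  rw [r.as_sum]
  refine Ideal.sum_mem _ fun m hm => ?_
  have h1 : 1 ≤ m 0 + m 1 := by
    by_contra hc
    have h0 : m 0 = 0 := by omega
    have h1 : m 1 = 0 := by omega
    rw [mem_support_iff, e_eta m, h0, h1] at hm
    exact hm (h _)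
  have : monomial m (coeff m r) = C (coeff m r) * z ^ (m 2) * (x ^ (m 0) * y ^ (m 1)) := by
    rw [mul_assoc, mul_comm (z ^ _), mono_eq, ← e_eta, C_mul_monomial, mul_one]
  rw [this]
  exact Ideal.mul_mem_left _ _ (mono_mem_TT x y 1 _ _ h1)

lemma coeff_TT1 {r : SS} (h : r ∈ TT x y 1) (n : ℕ) : coeff (e 0 0 n) r = 0 := by
  obtain ⟨p, q, rfl⟩ := mem_TT1.1 h
  have h1 := coeff_mul_mono 0 0 n 1 0 0 p
  have h2 := coeff_mul_mono 0 0 n 0 1 0 q
  simp only [pow_one, pow_zero, mul_one, one_mul] at h1 h2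
  rw [coeff_add, mul_comm x, mul_comm y, h1, h2]
  simp

lemma xyz_reg (r s t : SS) (h : z * r = x * s + y * t) : ∃ p q, r = x * p + y * q := by
  refine mem_TT1.1 (mem_TT1_of_coeff fun n => ?_)
  have h1 := coeff_TT1 (mem_TT1.2 ⟨s, t, h⟩) (n + 1)
  have h2 := coeff_mul_mono 0 0 (n + 1) 0 0 1 r
  simp only [pow_one, pow_zero, one_mul] at h2
  rw [mul_comm, h2] at h1
  simpa using h1

lemma pdT (n : ℕ) : PD SS (TT x y n) 2 :=
  pd_TT (fun r h => x_reg 1 r (by simpa using h))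
    (fun n r s h => by simpa using xy_reg 1 n r s (by simpa using h)) n

noncomputable def gg : SS := z * x ^ 5 * y ^ 2 + x ^ 3 * y ^ 5
noncomputable def VV : Set SS := {x ^ 7, x ^ 6 * y, x ^ 4 * y ^ 3, x * y ^ 6, y ^ 7}
noncomputable def QQ : Ideal SS := Ideal.span (insert gg VV)

lemma g1 : x ^ 7 ∈ QQ := Ideal.subset_span (by simp [VV])
lemma g2 : x ^ 6 * y ∈ QQ := Ideal.subset_span (by simp [VV])
lemma g3 : x ^ 4 * y ^ 3 ∈ QQ := Ideal.subset_span (by simp [VV])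
lemma g4 : x * y ^ 6 ∈ QQ := Ideal.subset_span (by simp [VV])
lemma g5 : y ^ 7 ∈ QQ := Ideal.subset_span (by simp [VV])
lemma g6 : gg ∈ QQ := Ideal.subset_span (by simp)

lemma QQ_le {I : Ideal SS} (h1 : x ^ 7 ∈ I) (h2 : x ^ 6 * y ∈ I) (h3 : x ^ 4 * y ^ 3 ∈ I)
    (h4 : x * y ^ 6 ∈ I) (h5 : y ^ 7 ∈ I) (h6 : gg ∈ I) : QQ ≤ I := by
  rw [QQ, Ideal.span_le]
  intro r hr
  simp only [VV, Set.mem_insert_iff, Set.mem_singleton_iff] at hr
  rcases hr with rfl | rfl | rfl | rfl | rfl | rfl <;> assumption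

def pV (a b _c : ℕ) : Prop := 7 ≤ a ∨ (6 ≤ a ∧ 1 ≤ b) ∨ (4 ≤ a ∧ 3 ≤ b) ∨ (1 ≤ a ∧ 6 ≤ b) ∨ 7 ≤ b
def pM (a b c : ℕ) : Prop := pV a b c ∨ (3 ≤ a ∧ 5 ≤ b) ∨ 1 ≤ c

lemma pV_up : ∀ a b c a' b' c', pV a b c → pV (a' + a) (b' + b) (c' + c) := by
  intro a b c a' b' c' h; unfold pV at *; omega
lemma pM_up : ∀ a b c a' b' c', pM a b c → pM (a' + a) (b' + b) (c' + c) := by
  intro a b c a' b' c' h; unfold pM pV at *; omega

lemma VV_le : Ideal.span VV ≤ Ip pV pV_up := by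
  rw [Ideal.span_le]
  intro r hr
  simp only [VV, Set.mem_insert_iff, Set.mem_singleton_iff] at hr
  rcases hr with rfl | rfl | rfl | rfl | rfl
  · simpa using mono_mem_Ip (hp := pV_up) (a := 7) (b := 0) (c := 0) (by simp [pV])
  · simpa using mono_mem_Ip (hp := pV_up) (a := 6) (b := 1) (c := 0) (by simp [pV])
  · simpa using mono_mem_Ip (hp := pV_up) (a := 4) (b := 3) (c := 0) (by simp [pV])
  · simpa using mono_mem_Ip (hp := pV_up) (a := 1) (b := 6) (c := 0) (by simp [pV])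
  · simpa using mono_mem_Ip (hp := pV_up) (a := 0) (b := 7) (c := 0) (by simp [pV])

lemma gg_eq : gg = x ^ 5 * y ^ 2 * z ^ 1 + x ^ 3 * y ^ 5 * z ^ 0 := by rw [gg]; ring

lemma QQ_le_M : QQ ≤ Ip pM pM_up := by
  have hV : Ideal.span VV ≤ Ip pM pM_up := fun f hf m hm => Or.inl (VV_le hf m hm)
  refine QQ_le (hV (Ideal.subset_span (by simp [VV]))) (hV (Ideal.subset_span (by simp [VV])))
    (hV (Ideal.subset_span (by simp [VV]))) (hV (Ideal.subset_span (by simp [VV])))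
    (hV (Ideal.subset_span (by simp [VV]))) ?_
  rw [gg_eq]
  exact Ideal.add_mem _ (mono_mem_Ip (by simp [pM])) (mono_mem_Ip (by simp [pM]))

lemma u_not_mem : x ^ 9 * y ^ 5 ∉ QQ ^ 2 := by
  intro h
  have key : ∀ r ∈ QQ * QQ, coeff (e 9 5 0) r = 0 := by
    intro r hr
    refine Submodule.mul_induction_on hr (fun f hf g hg => ?_) (fun f g hf hg => ?_)
    · by_contra hne
      obtain ⟨a, ha, b, hb, hab⟩ := supp_mul (mem_support_iff.2 hne)
      have h1 := QQ_le_M hf a ha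
      have h2 := QQ_le_M hg b hb
      have e0 : a 0 + b 0 = 9 := by simpa using DFunLike.congr_fun hab 0
      have e1 : a 1 + b 1 = 5 := by simpa using DFunLike.congr_fun hab 1
      have e2 : a 2 + b 2 = 0 := by simpa using DFunLike.congr_fun hab 2
      unfold pM pV at h1 h2
      omega
    · rw [coeff_add, hf, hg, add_zero]
  have h1 := key _ (by rwa [← sq])
  have h2 := mono_eq 9 5 0
  rw [pow_zero, mul_one] at h2
  rw [h2, coeff_monomial] at h1
  simp at h1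

lemma colon_h (c : SS) : c ∈ TT x y 1 ↔ c * (x ^ 5 * y ^ 2) ∈ QQ := by
  constructor
  · intro h
    obtain ⟨p, q, rfl⟩ := mem_TT1.1 h
    have := QQ.add_mem (QQ.mul_mem_left (p * y) g2) (QQ.mul_mem_left (q * x) g3)
    convert this using 1; ring
  · intro h
    obtain ⟨q, v, hv, hc⟩ := Ideal.mem_span_insert.1 h
    have hv' := VV_le hv
    have hh : c * (x ^ 5 * y ^ 2) = c * (x ^ 5 * y ^ 2 * z ^ 0) := by simp
    rw [hh, gg_eq, mul_add] at hc
    have hq : ∀ n, coeff (e 0 0 n) q = 0 := by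
      intro n
      have := congrArg (coeff (e 3 5 n)) hc
      rw [coeff_add, coeff_add, coeff_mul_mono, coeff_mul_mono, coeff_mul_mono,
        coeff_Ip hv' (by simp [pV])] at this
      simpa using this.symm
    refine mem_TT1_of_coeff fun n => ?_
    have := congrArg (coeff (e 5 2 n)) hc
    rw [coeff_add, coeff_add, coeff_mul_mono, coeff_mul_mono, coeff_mul_mono,
      coeff_Ip hv' (by simp [pV])] at this
    simpa [hq] using this

noncomputable def WW : Ideal SS := step (step (step (TT x y 3) x (y ^ 5)) (x ^ 2) (y ^ 6)) x (y ^ 7)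

lemma self_step {J : Ideal SS} {a b c : SS} : c * b ∈ step J a b :=
  mem_step.2 ⟨0, J.zero_mem, c, by simp⟩
lemma up_step {J : Ideal SS} {a b j : SS} (hj : j ∈ J) : a * j ∈ step J a b :=
  mem_step.2 ⟨j, hj, 0, by simp⟩

lemma pdW : PD SS WW 2 := by
  refine pd_step (fun r h => x_reg 1 r (by simpa using h))
    (fun r s h => by simpa using xy_reg 1 7 r s (by simpa using h))
    (by rw [pow_succ' y 6]; exact self_step) ?_
  refine pd_step (x_reg 2) (xy_reg 2 6) (by rw [pow_succ' y 5]; exact self_step) ?_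
  exact pd_step (fun r h => x_reg 1 r (by simpa using h))
    (fun r s h => by simpa using xy_reg 1 5 r s (by simpa using h))
    (by simpa using mono_mem_TT x y 3 0 5 (by omega)) (pdT 3)

lemma W_mono (a b : ℕ) (h : 3 ≤ a + b) : x ^ (a + 4) * y ^ b ∈ WW := by
  have : x * (x ^ 2 * (x * (x ^ a * y ^ b))) ∈ WW :=
    up_step (up_step (up_step (mono_mem_TT x y 3 a b h)))
  convert this using 1; ring

lemma W_eq : QQ ⊔ Ideal.span {x ^ 5 * y ^ 2} = WW := by
  have h35 : x ^ 3 * y ^ 5 ∈ WW := by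
    have : x * (x ^ 2 * (1 * y ^ 5)) ∈ WW := up_step (up_step self_step)
    convert this using 1; ring
  apply le_antisymm
  · refine sup_le (QQ_le ?_ ?_ ?_ ?_ ?_ ?_) ?_
    · simpa using W_mono 3 0 (by omega)
    · simpa using W_mono 2 1 (by omega)
    · simpa using W_mono 0 3 (by omega)
    · have : x * (1 * y ^ 6) ∈ WW := up_step self_step
      simpa using this
    · have : 1 * y ^ 7 ∈ WW := self_step
      simpa using this
    · rw [gg, mul_assoc]
      exact WW.add_mem (WW.mul_mem_left _ (W_mono 1 2 (by omega))) h35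
    · rw [Ideal.span_le, Set.singleton_subset_iff]
      exact W_mono 1 2 (by omega)
  · intro r hr
    obtain ⟨r1, hr1, s1, rfl⟩ := mem_step.1 hr
    obtain ⟨r2, hr2, s2, rfl⟩ := mem_step.1 hr1
    obtain ⟨r3, hr3, s3, rfl⟩ := mem_step.1 hr2
    set I := QQ ⊔ Ideal.span {x ^ 5 * y ^ 2}
    have hh : x ^ 5 * y ^ 2 ∈ I := Ideal.mem_sup_right (Ideal.mem_span_singleton_self _)
    have hQ : ∀ r ∈ QQ, r ∈ I := fun r hr => Ideal.mem_sup_left hr
    have h1 := TT_le x y I 3 (x ^ 4) (fun a b hab => by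
      have hb : b ≤ 3 := by omega
      obtain rfl : a = 3 - b := by omega
      interval_cases b
      · convert hQ _ g1 using 1; norm_num; ring
      · convert hQ _ g2 using 1; norm_num; ring
      · convert hh using 1; norm_num; ring
      · convert hQ _ g3 using 1; norm_num) r3 hr3
    have h2 : x ^ 3 * y ^ 5 ∈ I := by
      have := I.sub_mem (hQ _ g6) (I.mul_mem_left z hh)
      convert this using 1; rw [gg]; ring
    have := I.add_mem (I.add_mem (I.add_mem h1 (I.mul_mem_left s3 h2))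
      (I.mul_mem_left s2 (hQ _ g4))) (I.mul_mem_left s1 (hQ _ g5))
    convert this using 1; ring

lemma pdQ : PD SS QQ 2 :=
  pd_down QQ (TT x y 1) (x ^ 5 * y ^ 2) colon_h (pdT 1) (W_eq ▸ pdW)

lemma Q_le_T : QQ ≤ TT x y 7 := by
  refine QQ_le ?_ ?_ ?_ ?_ ?_ ?_
  · simpa using mono_mem_TT x y 7 7 0 (by omega)
  · simpa using mono_mem_TT x y 7 6 1 (by omega)
  · simpa using mono_mem_TT x y 7 4 3 (by omega)
  · simpa using mono_mem_TT x y 7 1 6 (by omega)
  · simpa using mono_mem_TT x y 7 0 7 (by omega)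
  · rw [gg, mul_assoc]
    exact Ideal.add_mem _ (Ideal.mul_mem_left _ _ (mono_mem_TT x y 7 5 2 (by omega)))
      (mono_mem_TT x y 7 3 5 (by omega))

lemma Qpow_le (t : ℕ) : QQ ^ t ≤ TT x y (7 * t) := by
  induction t with
  | zero => exact le_top
  | succ t ih =>
    rw [pow_succ]
    exact (Ideal.mul_mono ih Q_le_T).trans (TT_mul x y _ _)

lemma gen_mem (i : ℕ) (hi : i = 0 ∨ i = 1 ∨ i = 3 ∨ i = 6 ∨ i = 7) : x ^ (7 - i) * y ^ i ∈ QQ := by
  rcases hi with rfl | rfl | rfl | rfl | rfl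
  · simpa using g1
  · simpa using g2
  · simpa using g3
  · simpa using g4
  · simpa using g5

lemma mono_mem_pow : ∀ t a b, a + b = 7 * (t + 3) → x ^ a * y ^ b ∈ QQ ^ (t + 3)
  | 0, a, b, h => by
    obtain ⟨i, j, k, hi, hj, hk, hb⟩ : ∃ i j k : ℕ, (i = 0 ∨ i = 1 ∨ i = 3 ∨ i = 6 ∨ i = 7) ∧
        (j = 0 ∨ j = 1 ∨ j = 3 ∨ j = 6 ∨ j = 7) ∧ (k = 0 ∨ k = 1 ∨ k = 3 ∨ k = 6 ∨ k = 7) ∧
        b = i + j + k := by
      have hb : b ≤ 21 := by omega
      have : ∀ b ≤ 21, ∃ i ∈ [0, 1, 3, 6, 7], ∃ j ∈ [0, 1, 3, 6, 7], ∃ k ∈ [0, 1, 3, 6, 7],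
          b = i + j + k := by decide
      obtain ⟨i, hi, j, hj, k, hk, h⟩ := this b hb
      exact ⟨i, j, k, by simpa using hi, by simpa using hj, by simpa using hk, h⟩
    have := Ideal.mul_mem_mul (Ideal.mul_mem_mul (gen_mem i hi) (gen_mem j hj)) (gen_mem k hk)
    have ha : a = (7 - i) + (7 - j) + (7 - k) := by omega
    rw [← pow_three'] at this
    rw [ha, hb]
    convert this using 1; ring
  | t + 1, a, b, h => by
    rw [show t + 1 + 3 = (t + 3) + 1 by omega, pow_succ]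
    by_cases ha : 7 ≤ a
    · obtain ⟨a, rfl⟩ : ∃ a', a = a' + 7 := ⟨a - 7, by omega⟩
      have := Ideal.mul_mem_mul (mono_mem_pow t a b (by omega)) g1
      convert this using 1; ring
    · obtain ⟨b, rfl⟩ : ∃ b', b = b' + 7 := ⟨b - 7, by omega⟩
      have := Ideal.mul_mem_mul (mono_mem_pow t a b (by omega)) g5
      convert this using 1; ring

lemma Qpow_eq (t : ℕ) : QQ ^ (t + 3) = TT x y (7 * (t + 3)) :=
  le_antisymm (Qpow_le _) fun r hr => by
    simpa using TT_le x y _ _ 1 (fun a b h => by simpa using mono_mem_pow t a b h) r hr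

lemma one_not_mem : (1 : SS) ∉ QQ := by
  intro h
  have := coeff_Ip (QQ_le_M h) (a := 0) (b := 0) (c := 0) (by simp [pM, pV])
  have h0 : e 0 0 0 = 0 := by simp [e]
  simp [h0] at this

lemma not_proj_pow (t : ℕ) (ht : 1 ≤ t) : ¬ Module.Projective SS ↥(QQ ^ t) := by
  refine not_proj (x_reg (7 * t)) (xy_reg (7 * t) (7 * t)) ?_ ?_ ?_
  · rw [pow_mul]; exact Ideal.pow_mem_pow g1 t
  · rw [pow_mul]; exact Ideal.pow_mem_pow g5 t
  · exact fun h => one_not_mem (Ideal.pow_le_self (by omega) h)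

lemma no_cover {m : ℕ} (f : (Fin m → SS) →ₗ[SS] ↥(QQ ^ 2)) (hf : Function.Surjective f)
    (hp : Module.Projective SS (LinearMap.ker f)) : False := by
  refine u_not_mem (no_socle (a := x) (b := y) (c := z) (fun r h => x_reg 1 r (by simpa using h))
    (fun r s h => by simpa using xy_reg 1 1 r s (by simpa using h)) xyz_reg f hf hp ?_ ?_ ?_)
  · rw [sq]
    convert Ideal.mul_mem_left _ y (Ideal.mul_mem_mul g2 g3) using 1; ring
  · rw [sq]
    convert Ideal.mul_mem_left _ x (Ideal.mul_mem_mul g1 g4) using 1; ring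
  · rw [sq]
    convert Ideal.sub_mem _ (Ideal.mul_mem_mul g3 g6)
      (Ideal.mul_mem_left _ y (Ideal.mul_mem_mul g2 g4)) using 1
    rw [gg]; ring

lemma homog : ∀ p ∈ insert gg VV, ∃ d : ℕ, MvPolynomial.IsHomogeneous p d := by
  have hm : ∀ a b c, MvPolynomial.IsHomogeneous (x ^ a * y ^ b * z ^ c) (1 * a + 1 * b + 1 * c) :=
    fun a b c => (((isHomogeneous_X ℚ 0).pow a).mul ((isHomogeneous_X ℚ 1).pow b)).mul
      ((isHomogeneous_X ℚ 2).pow c)
  intro p hp
  simp only [VV, Set.mem_insert_iff, Set.mem_singleton_iff] at hp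
  rcases hp with rfl | rfl | rfl | rfl | rfl | rfl
  · exact ⟨8, gg_eq ▸ (hm 5 2 1).add (hm 3 5 0)⟩
  · exact ⟨_, by simpa using hm 7 0 0⟩
  · exact ⟨_, by simpa using hm 6 1 0⟩
  · exact ⟨_, by simpa using hm 4 3 0⟩
  · exact ⟨_, by simpa using hm 1 6 0⟩
  · exact ⟨_, by simpa using hm 0 7 0⟩

end Pool.Agent.PdOne
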